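import Pool.Agent.Lib.MP_72d5fb_co.AA.Lit

/-!
# Quasi-symmetric 3-designs with positive intersection numbers: almost all `v`

The number of `v ≤ N` for which there is a quasi-symmetric 3-design on `v` points with `x > 0` and
`v - 2k + x > 0` (both the design and its complement have positive intersection numbers) is at most
`C N ^ (99 / 100)`.  In particular the set of these `v` has density zero.
-/

set_option autoImplicit false

namespace Pool.Agent.Results.MP_72d5fb_co.AlmostAll

open QS3D Finset Filter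

/-- The `v ≤ N` for which there is a quasi-symmetric `3-(v,k,l)` design on the point set `Fin v`, with
blocks `B 0, ..., B (b-1)`, intersection numbers `x < y`, `x > 0` and `v - 2k + x > 0`. -/
def openCase (N : ℕ) : Set ℕ :=
  {v : ℕ | v ≤ N ∧ ∃ (b k l x y : ℕ) (B : Fin b → Finset (Fin v)), IsDesign3 B k l ∧ IsQS B x y ∧
    0 < x ∧ 2 * k < v + x}

/-- **Main result.** -/
theorem result :
    (∃ C : ℝ, ∀ N : ℕ, ((openCase N).ncard : ℝ) ≤ C * (N : ℝ) ^ (99 / 100 : ℝ)) ∧
    Tendsto (fun N : ℕ => ((openCase N).ncard : ℝ) / N) atTop (nhds 0) := by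
  obtain ⟨C, hC⟩ := AA.lit
  have h1 : ∀ N : ℕ, ((openCase N).ncard : ℝ) ≤ C * (N : ℝ) ^ (99 / 100 : ℝ) := by
    intro N
    have hfin : (openCase N).Finite :=
      (Set.finite_Iic N).subset fun v hv => hv.1
    have h2 := hC N hfin.toFinset (by
      intro v hv
      have h3 : v ∈ openCase N := by simpa using hv
      exact h3)
    rwa [← Set.ncard_eq_toFinset_card _ hfin] at h2
  refine ⟨⟨C, h1⟩, ?_⟩
  have h4 : Tendsto (fun N : ℕ => C * ((N : ℝ) ^ (-(1 / 100 : ℝ)))) atTop (nhds 0) := by
    have h5 : Tendsto (fun N : ℕ => ((N : ℝ) ^ (-(1 / 100 : ℝ)))) atTop (nhds 0) :=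
      (tendsto_rpow_neg_atTop (by norm_num : (0 : ℝ) < 1 / 100)).comp tendsto_natCast_atTop_atTop
    simpa using h5.const_mul C
  refine squeeze_zero' (Eventually.of_forall fun N => by positivity) ?_ h4
  filter_upwards [eventually_gt_atTop 0] with N hN
  have hN' : (0 : ℝ) < N := by exact_mod_cast hN
  rw [div_le_iff₀ hN']
  calc ((openCase N).ncard : ℝ) ≤ C * (N : ℝ) ^ (99 / 100 : ℝ) := h1 N
    _ = C * (N : ℝ) ^ (-(1 / 100 : ℝ)) * N := by
      rw [mul_assoc]
      congr 1
      nth_rewrite 3 [← Real.rpow_one (N : ℝ)]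
      rw [← Real.rpow_add hN']
      norm_num

end Pool.Agent.Results.MP_72d5fb_co.AlmostAll
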