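import Pool.Agent.Lib.MP_72d5fb_co.Des
import Pool.Agent.Lib.MP_72d5fb_co.Cop
import Pool.Agent.Lib.MP_72d5fb_co.Rw

/-!
# Quasi-symmetric 3-designs: a divisibility condition and a bound for the number of blocks

Let `D` be a quasi-symmetric `3-(v,k,l)` design with `b` blocks and intersection numbers `x < y`,
`x > 0`, `v - 2k + x > 0`, let `r` be the number of blocks through a point and `lam` the number of
blocks through two points, and let `G = gcd (v - 2, (k - 1) ^ 2)`.  Then `gcd (v - 2, k - 1) > 1`,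
`(v - 2) ^ 2` divides `4 G ^ 2 (k (v - k) - 2 (r - lam))`, and `b` is equal to `v (v - 1) / 2`
(that is, `D` is a tight 4-design) or at most
`(v (v - 1) / 2) (1 - (v - 2) ^ 2 / (4 G ^ 2 k (v - k)))`.
-/

set_option autoImplicit false

namespace Pool.Agent.Results.MP_72d5fb_co.BlockBound

open QS3D Finset

/-- **Main result.** -/
theorem result {α ι : Type} [Fintype α] [DecidableEq α] [Fintype ι] [DecidableEq ι]
    (B : ι → Finset α) (k l x y : ℕ) (hD : IsDesign3 B k l) (hQ : IsQS B x y) (hx : 0 < x)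
    (hx' : 2 * k < Fintype.card α + x) (v b G : ℕ) (hv : v = Fintype.card α)
    (hb : b = Fintype.card ι) (hG : G = Nat.gcd (v - 2) ((k - 1) ^ 2)) :
    1 < Nat.gcd (v - 2) (k - 1) ∧
    (∀ r lam : ℕ, (∀ p : α, (univ.filter fun i => p ∈ B i).card = r) →
      (∀ p q : α, p ≠ q → (univ.filter fun i => p ∈ B i ∧ q ∈ B i).card = lam) →
      ((v : ℤ) - 2) ^ 2 ∣ 4 * (G : ℤ) ^ 2 * ((k : ℤ) * ((v : ℤ) - k) - 2 * ((r : ℤ) - lam))) ∧
    (2 * b = v * (v - 1) ∨
      (b : ℚ) ≤ (v : ℚ) * ((v : ℚ) - 1) / 2 *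
        (1 - ((v : ℚ) - 2) ^ 2 / (4 * (G : ℚ) ^ 2 * k * ((v : ℚ) - k)))) := by
  subst hv hb
  have h3 := hD.three_le
  have hlt := hD.lt_card
  have hxy := hQ.1
  have hall : ∀ i j, i ≠ j → (B i ∩ B j).card = x ∨ (B i ∩ B j).card = y := by
    intro i j hij
    have : (B i ∩ B j).card ∈ ({x, y} : Set ℕ) := by
      rw [← hQ.2]; exact ⟨i, j, hij, rfl⟩
    simpa using this
  obtain ⟨m, d, n, w, lam, r, hy, hk, hr, hlam, hl, hlr, hrb, hF, -, -⟩ :=
    des B k l x y hD hQ hx (by omega)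
  obtain ⟨v, hv⟩ : ∃ v, Fintype.card α = v := ⟨_, rfl⟩
  obtain ⟨b, hb⟩ : ∃ b, Fintype.card ι = b := ⟨_, rfl⟩
  -- `m ≥ 3`, so `x < y < k`
  obtain ⟨b0, b1, -, -, -, -, -, -⟩ := bas _ _ _ _ _ _ hF
  have hm3 := small _ _ _ _ _ _ hF b0 b1
  have hm3' : 3 ≤ m := by exact_mod_cast hm3
  have hd1 : 1 ≤ d := by exact_mod_cast hF.hd
  have hyk : y < k := by
    rw [hy, hk]
    have : 3 * d ≤ m * d := Nat.mul_le_mul_right _ hm3'
    omega
  have hRWn := rw_le B k x y (by omega) hD.card_block hall (by omega) hyk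
  rw [hv] at hF hl hlr hrb hx' hlt hG hRWn ⊢
  rw [hb] at hrb hRWn ⊢
  have hv4 : 4 ≤ v := by omega
  -- integers
  have zlr : (lam : ℤ) * ((v : ℤ) - 1) = r * (k - 1) := by
    have : ((lam * (v - 1) : ℕ) : ℤ) = ((r * (k - 1) : ℕ) : ℤ) := by exact_mod_cast hlr
    rw [Nat.cast_mul, Nat.cast_mul, Nat.cast_sub (by omega), Nat.cast_sub (by omega)] at this
    push_cast at this
    exact this
  have zr : (r : ℤ) = lam + d * n := by exact_mod_cast hr
  have zrq : (r : ℤ) * (v - k) = d * n * (v - 1) := by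
    linear_combination zlr + ((v : ℤ) - 1) * zr
  have zrb : (r : ℤ) * v = b * k := by exact_mod_cast hrb
  have zbk : (b : ℤ) * (k * (v - k)) = d * n * v * (v - 1) := by
    linear_combination (-((v : ℤ) - k)) * zrb + (v : ℤ) * zrq
  have z2b : 2 * (b : ℤ) ≤ v * (v - 1) := by
    have h1 : b * 2 ≤ v * (v - 1) := by
      calc b * 2 ≤ v.choose 2 * 2 := Nat.mul_le_mul_right _ hRWn
        _ = v * (v - 1) := by
          rw [Nat.choose_two_right]
          exact Nat.div_mul_cancel (Nat.even_mul_pred_self v).two_dvd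
    have h2 : ((b * 2 : ℕ) : ℤ) ≤ ((v * (v - 1) : ℕ) : ℤ) := by exact_mod_cast h1
    rw [Nat.cast_mul, Nat.cast_mul, Nat.cast_sub (by omega)] at h2
    push_cast at h2
    linarith
  have hvpos : (0 : ℤ) < (v : ℤ) * (v - 1) := by
    have : (4 : ℤ) ≤ v := by exact_mod_cast hv4
    nlinarith
  have hKpos : (0 : ℤ) < (k : ℤ) * (v - k) := by
    have h1 : (3 : ℤ) ≤ k := by exact_mod_cast h3
    have h2 : (k : ℤ) + 1 ≤ v := by exact_mod_cast hlt
    exact mul_pos (by linarith) (by linarith)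
  have hRW : 2 * (d : ℤ) * n ≤ (k : ℤ) * (((v : ℤ) - 2) + 2 - k) := by
    have h1 : 0 ≤ (v : ℤ) * (v - 1) * (k * (v - k) - 2 * d * n) := by
      have h2 : (v : ℤ) * (v - 1) * (k * (v - k) - 2 * d * n)
          = (k * (v - k)) * (v * (v - 1) - 2 * b) := by
        linear_combination 2 * zbk
      rw [h2]
      exact mul_nonneg hKpos.le (by linarith)
    have h3 := nonneg_of_mul_nonneg_right h1 hvpos
    have h4 : (k : ℤ) * (((v : ℤ) - 2) + 2 - k) = k * (v - k) := by ring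
    rw [h4]; linarith
  have hnc := not_coprime hF hRW
  have cV : (((v - 2 : ℕ) : ℤ)) = (v : ℤ) - 2 := by
    rw [Nat.cast_sub (by omega)]; norm_num
  have ck : (((k - 1 : ℕ) : ℤ)) = (k : ℤ) - 1 := by
    rw [Nat.cast_sub (by omega)]; norm_num
  obtain ⟨S, a, hcop, hS, ha⟩ := Nat.exists_coprime (v - 2) ((k - 1) ^ 2)
  rw [← hG] at hS ha
  have hGpos : 0 < G := by
    rw [hG]; exact Nat.gcd_pos_of_pos_left _ (by omega)
  have hSpos : 0 < S := by
    rcases Nat.eq_zero_or_pos S with h | h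
    · rw [h, zero_mul] at hS; omega
    · exact h
  have zS : (v : ℤ) - 2 = (G : ℤ) * S := by
    rw [← cV, hS]; push_cast; ring
  have za : ((k : ℤ) - 1) ^ 2 = (G : ℤ) * a := by
    rw [← ck]
    have : (((k - 1) ^ 2 : ℕ) : ℤ) = ((a * G : ℕ) : ℤ) := by rw [← ha]
    push_cast at this ⊢
    linarith
  obtain ⟨i, -, hT⟩ := T_int hF (by exact_mod_cast hGpos.ne') (by exact_mod_cast hSpos.ne') zS za
    (Nat.isCoprime_iff_coprime.2 hcop)
  obtain ⟨T, hTdef⟩ : ∃ T : ℤ,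
      T = (i - G) ^ 2 + 2 * d * i * (P m d * G - n * i) - (G : ℤ) ^ 2 * d ^ 2 := ⟨_, rfl⟩
  rw [← hTdef] at hT
  clear hTdef
  have hT2 : ((v : ℤ) - 2) ^ 2 * T = 4 * (G : ℤ) ^ 2 * ((k : ℤ) * (v - k) - 2 * (d * n)) := by
    linear_combination (G : ℤ) ^ 2 * hT + (((v : ℤ) - 2) + G * S) * T * zS
  refine ⟨?_, ?_, ?_⟩
  · by_contra hcon
    have h1 : Nat.gcd (v - 2) (k - 1) = 1 := by
      have : 0 < Nat.gcd (v - 2) (k - 1) := Nat.gcd_pos_of_pos_left _ (by omega)
      omega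
    apply hnc
    have h2 : IsCoprime ((v - 2 : ℕ) : ℤ) ((k - 1 : ℕ) : ℤ) :=
      Nat.isCoprime_iff_coprime.2 h1
    rwa [cV, ck] at h2
  · intro r' lam' hr' hlam'
    obtain ⟨r'', hr'', hlr''⟩ := point B k lam' (by omega) (by rw [hv]; exact hlt)
      hD.card_block hlam'
    have hne : Nonempty α := Fintype.card_pos_iff.1 (by omega)
    obtain ⟨p⟩ := hne
    have e1 : r' = r'' := by rw [← hr' p, ← hr'' p]
    rw [← e1] at hlr''
    have hb' := blk B k r' hD.card_block hr'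
    rw [hv, hb] at hb'
    rw [hv] at hlr''
    have e2 : r' = r := by
      apply Nat.eq_of_mul_eq_mul_right (by omega : 0 < v)
      rw [hb', hrb]
    have e3 : lam' = lam := by
      apply Nat.eq_of_mul_eq_mul_right (by omega : 0 < v - 1)
      rw [hlr'', e2, hlr]
    rw [e2, e3]
    refine ⟨T, ?_⟩
    rw [hT2]
    linear_combination -8 * (G : ℤ) ^ 2 * zr
  · have hTn : 0 ≤ T := by
      have h1 : 0 ≤ ((v : ℤ) - 2) ^ 2 * T := by
        rw [hT2]
        have h4 : (k : ℤ) * (((v : ℤ) - 2) + 2 - k) = k * (v - k) := by ring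
        rw [h4] at hRW
        have : 0 ≤ (k : ℤ) * (v - k) - 2 * (d * n) := by linarith
        positivity
      have h2 : (0 : ℤ) < ((v : ℤ) - 2) ^ 2 := by
        have : (4 : ℤ) ≤ v := by exact_mod_cast hv4
        have : (0 : ℤ) < (v : ℤ) - 2 := by linarith
        positivity
      exact nonneg_of_mul_nonneg_right h1 h2
    have hmain : ((v : ℤ) - 2) ^ 2 * (v * (v - 1)) * T
        = 4 * (G : ℤ) ^ 2 * (k * (v - k)) * (v * (v - 1) - 2 * b) := by
      linear_combination (v : ℤ) * (v - 1) * hT2 + 8 * (G : ℤ) ^ 2 * zbk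
    have hGz : (0 : ℤ) < (G : ℤ) := by exact_mod_cast hGpos
    rcases eq_or_lt_of_le hTn with hT0 | hT0
    · left
      rw [← hT0, mul_zero] at hmain
      have h1 : (v : ℤ) * (v - 1) - 2 * b = 0 := by
        have h2 : 4 * (G : ℤ) ^ 2 * (k * (v - k)) ≠ 0 := by positivity
        exact (mul_eq_zero.1 hmain.symm).resolve_left h2
      have h3 : ((2 * b : ℕ) : ℤ) = ((v * (v - 1) : ℕ) : ℤ) := by
        rw [Nat.cast_mul, Nat.cast_mul, Nat.cast_sub (by omega)]
        push_cast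
        linarith
      exact_mod_cast h3
    · right
      have hT1 : 1 ≤ T := by omega
      have h1 : ((v : ℤ) - 2) ^ 2 * (v * (v - 1))
          ≤ 4 * (G : ℤ) ^ 2 * (k * (v - k)) * (v * (v - 1) - 2 * b) := by
        rw [← hmain]
        have hv1 : (0 : ℤ) ≤ (v : ℤ) - 1 := by
          have : (4 : ℤ) ≤ v := by exact_mod_cast hv4
          linarith
        have h0 : (0 : ℤ) ≤ ((v : ℤ) - 2) ^ 2 * (v * (v - 1)) :=
          mul_nonneg (sq_nonneg _) (mul_nonneg (Int.natCast_nonneg v) hv1)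
        calc ((v : ℤ) - 2) ^ 2 * (v * (v - 1))
            = ((v : ℤ) - 2) ^ 2 * (v * (v - 1)) * 1 := (mul_one _).symm
          _ ≤ ((v : ℤ) - 2) ^ 2 * (v * (v - 1)) * T := mul_le_mul_of_nonneg_left hT1 h0
      have h2 : ((v : ℚ) - 2) ^ 2 * (v * (v - 1))
          ≤ 4 * (G : ℚ) ^ 2 * (k * (v - k)) * (v * (v - 1) - 2 * b) := by exact_mod_cast h1
      have hKq : (0 : ℚ) < (k : ℚ) * (v - k) := by exact_mod_cast hKpos
      have hGq : (0 : ℚ) < (G : ℚ) := by exact_mod_cast hGpos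
      have hden : (0 : ℚ) < 4 * (G : ℚ) ^ 2 * k * ((v : ℚ) - k) := by
        have : 4 * (G : ℚ) ^ 2 * k * ((v : ℚ) - k) = 4 * (G : ℚ) ^ 2 * (k * ((v : ℚ) - k)) := by
          ring
        rw [this]; positivity
      have h3 : (v : ℚ) * (v - 1) * ((v - 2) ^ 2 / (4 * (G : ℚ) ^ 2 * k * ((v : ℚ) - k)))
          ≤ v * (v - 1) - 2 * b := by
        rw [← mul_div_assoc, div_le_iff₀ hden]
        linarith
      linarith

end Pool.Agent.Results.MP_72d5fb_co.BlockBound
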