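import Pool.Agent.Lib.MP_72d5fb_co.Main

/-!
# Quasi-symmetric 3-designs whose block graph has all eigenvalues larger than -41

The block graph of a quasi-symmetric design with intersection numbers `x < y`: the vertices are
the blocks (their indices), two of them are adjacent when they meet in `y` points.
-/

set_option autoImplicit false

namespace Pool.Agent.Results.MP_72d5fb_co.EigenvalueForty

open QS3D

/-- A quasi-symmetric `3-(v,k,l)` design with intersection numbers `x < y` such that `x > 0` and
`v - 2k + x > 0` and such that all eigenvalues of the block graph are larger than `-41` has the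
parameters of the Witt design on 22 or 23 points or of its complement. -/
theorem result :
    ∀ {α ι : Type} [Fintype α] [DecidableEq α] [Fintype ι] [DecidableEq ι]
      (B : ι → Finset α) (k l x y : ℕ),
      IsDesign3 B k l → IsQS B x y → 0 < x → 2 * k < Fintype.card α + x →
      (∀ (μ : ℝ) (z : ι → ℝ), z ≠ 0 → (adj ℝ B y).mulVec z = μ • z → -41 < μ) →
      (Fintype.card α, k, l, x, y) ∈
        ({(22, 7, 4, 1, 3), (22, 15, 52, 9, 11), (23, 7, 5, 1, 3), (23, 16, 80, 10, 12)} :
          Finset (ℕ × ℕ × ℕ × ℕ × ℕ)) := by
  intro α ι _ _ _ _ B k l x y hD hQ hx hx' hall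
  obtain ⟨m, a1, a2, a3, a4, a5, a6, a7⟩ := core B k l x y hD hQ hx hx'
  apply a7
  obtain ⟨z, hz, hzz⟩ := a3.1
  have h2 := hall _ z hz hzz
  have h3 : (m : ℝ) < 41 := by linarith
  have h4 : m < 41 := by exact_mod_cast h3
  omega

end Pool.Agent.Results.MP_72d5fb_co.EigenvalueForty
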