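import Pool.Agent.Lib.MP_72d5fb_co.Main
import Pool.Agent.Lib.MP_72d5fb_co.Fin

/-!
# Quasi-symmetric 3-designs: finitely many for each least eigenvalue

The block graph of a quasi-symmetric design with intersection numbers `x < y`: the vertices are
the blocks (their indices), two of them are adjacent when they meet in `y` points.
-/

set_option autoImplicit false

namespace Pool.Agent.Results.MP_72d5fb_co.FiniteForEachEigenvalue

open QS3D

/-- `μ` is an eigenvalue of the real matrix `M`. -/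
def IsEigenvalue {ι : Type} [Fintype ι] (M : Matrix ι ι ℝ) (μ : ℝ) : Prop :=
  ∃ z : ι → ℝ, z ≠ 0 ∧ M.mulVec z = μ • z

/-- `B` is a quasi-symmetric `3-(v,k,l)` design, `v = |α|`, with intersection numbers `x < y`,
such that the smaller intersection numbers `x` of the design and `v - 2k + x` of its complement
are both positive. -/
def IsQS3 {α ι : Type} [Fintype α] [DecidableEq α] [Fintype ι] (B : ι → Finset α)
    (k l x y : ℕ) : Prop :=
  IsDesign3 B k l ∧ IsQS B x y ∧ 0 < x ∧ 2 * k < Fintype.card α + x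

/-- For every quasi-symmetric 3-design with `x > 0` and `v - 2k + x > 0` there is an integer
`m ≥ 3` with `k - x = m (y - x)`, `-m` is the least eigenvalue of the block graph, and
`2 (y - x) < m^3`, `3 (v - 2) < 4 m^5`, `b < m^18`; so for every `M` there are only finitely many
such designs all of whose block graph eigenvalues are at least `-M`. -/
theorem result :
    (∀ {α ι : Type} [Fintype α] [DecidableEq α] [Fintype ι] [DecidableEq ι]
      (B : ι → Finset α) (k l x y : ℕ), IsQS3 B k l x y →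
      ∃ m : ℕ, 3 ≤ m ∧ k = x + m * (y - x) ∧
        IsLeast {μ : ℝ | IsEigenvalue (adj ℝ B y) μ} (-(m : ℝ)) ∧
        2 * (y - x) < m ^ 3 ∧ 3 * (Fintype.card α - 2) < 4 * m ^ 5 ∧
        Fintype.card ι < m ^ 18) ∧
    ∀ M : ℕ, {s : (v : ℕ) × (b : ℕ) × (Fin b → Finset (Fin v)) |
      ∃ k l x y : ℕ, IsQS3 s.2.2 k l x y ∧
        ∀ μ : ℝ, IsEigenvalue (adj ℝ s.2.2 y) μ → -(M : ℝ) ≤ μ}.Finite := by
  have h1 : ∀ {α ι : Type} [Fintype α] [DecidableEq α] [Fintype ι] [DecidableEq ι]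
      (B : ι → Finset α) (k l x y : ℕ), IsQS3 B k l x y →
      ∃ m : ℕ, 3 ≤ m ∧ k = x + m * (y - x) ∧
        IsLeast {μ : ℝ | IsEigenvalue (adj ℝ B y) μ} (-(m : ℝ)) ∧
        2 * (y - x) < m ^ 3 ∧ 3 * (Fintype.card α - 2) < 4 * m ^ 5 ∧
        Fintype.card ι < m ^ 18 := by
    intro α ι _ _ _ _ B k l x y h
    obtain ⟨m, a1, a2, a3, a4, a5, a6, -⟩ := core B k l x y h.1 h.2.1 h.2.2.1 h.2.2.2
    exact ⟨m, a1, a2, a3, a4, a5, a6⟩
  refine ⟨h1, ?_⟩
  intro M
  refine finite_designs (4 * M ^ 5 + 3) (M ^ 18) (fun v b B => ∃ k l x y : ℕ,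
    IsQS3 B k l x y ∧ ∀ μ : ℝ, IsEigenvalue (adj ℝ B y) μ → -(M : ℝ) ≤ μ) ?_
  rintro v b B ⟨k, l, x, y, hq, hM⟩
  obtain ⟨m, a1, a2, a3, a4, a5, a6⟩ := h1 B k l x y hq
  have hmM : m ≤ M := by
    have h2 := hM _ a3.1
    have h3 : (m : ℝ) ≤ M := by linarith
    exact_mod_cast h3
  have p5 : m ^ 5 ≤ M ^ 5 := Nat.pow_le_pow_left hmM 5
  have p18 : m ^ 18 ≤ M ^ 18 := Nat.pow_le_pow_left hmM 18
  simp only [Fintype.card_fin] at a5 a6
  constructor
  · omega
  · omega

end Pool.Agent.Results.MP_72d5fb_co.FiniteForEachEigenvalue
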